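import Pool.Agent.R945.AP.Asm
import Pool.Agent.R945.AP.P_FIXM
import Pool.Agent.R945.AP.P_FIXA
import Pool.Agent.R945.AP.P_SQM
import Pool.Agent.R945.AP.P_SQZ
import Pool.Agent.R945.AP.P_SQA
import Pool.Agent.R945.AP.P_RK
import Pool.Agent.R945.AP.P_TRIM
import Pool.Agent.R945.AP.P_TRIZ
import Pool.Agent.R945.AP.P_TRIA
import Pool.Agent.R945.AP.P_EQV
import Pool.Agent.R945.AP.P_ONE
import Pool.Agent.R945.AP.P_COM
import Pool.Agent.R945.AP.P_BIC
import Pool.Agent.R945.AP.P_EPR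
import Pool.Agent.R945.AP.P_QUAD
import Pool.Agent.R945.AP.P_RANK
import Pool.Agent.R945.AP.P_PR3
import Pool.Agent.R945.AP.P_PR2
import Pool.Agent.R945.AP.P_BLK
import Pool.Agent.R945.AP.P_B3
import Pool.Agent.R945.AP.P_B2
import Pool.Agent.R945.AP.P_TYPE
import Pool.Agent.R945.AP.P_UNI
import Pool.Agent.R945.AP.P_FIN
import Pool.Agent.R945.AP.P_D1

/-!
# The linear bijections of `B(H)` that commute with the mean-type Aluthge transforms

`H` is an arbitrary complex Hilbert space, `H →L[ℂ] H` the algebra of bounded operators,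
`CFC.abs T = (T* T)^{1/2}`, `star` the adjoint.
-/

set_option autoImplicit false

universe u

namespace Pool.Agent.Results.MP_11cc5c_an.Full

open Pool.Agent.R884.AL

section defs

variable {H : Type u} [NormedAddCommGroup H] [InnerProductSpace ℂ H] [CompleteSpace H]

/-- The partial isometry `V` of the polar decomposition `T = V|T|` with `ker V = ker T`: the unique
`V` with `V|T| = T`, `V V* V = V` and `ker V = ker T` (`IsPolarPart T V`). -/
noncomputable def polarPart (T : H →L[ℂ] H) : H →L[ℂ] H := (existsUnique_polarPart T).choose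

/-- The power `P ^ l` of a positive operator (continuous functional calculus, `P ^ 0 = 1`). -/
noncomputable def power (P : H →L[ℂ] H) (l : ℝ) : H →L[ℂ] H := cfc (fun t : ℝ => t ^ l) P

/-- The `l`-Aluthge transform `|T|^l V |T|^(1-l)`. -/
noncomputable def aluthge (l : ℝ) (T : H →L[ℂ] H) : H →L[ℂ] H :=
  power (CFC.abs T) l * polarPart T * power (CFC.abs T) (1 - l)

/-- `M_l(T)`: the mean of the `l`- and the `(1-l)`-Aluthge transforms. -/
noncomputable def M (l : ℝ) (T : H →L[ℂ] H) : H →L[ℂ] H :=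
  (2⁻¹ : ℂ) • (aluthge l T + aluthge (1 - l) T)

/-- The mean transform `(T + |T| V) / 2`. -/
noncomputable def meanTransform (T : H →L[ℂ] H) : H →L[ℂ] H :=
  (2⁻¹ : ℂ) • (T + CFC.abs T * polarPart T)

/-- The mean-Aluthge transform: the mean transform of the Aluthge transform. -/
noncomputable def meanAluthge (T : H →L[ℂ] H) : H →L[ℂ] H := meanTransform (aluthge (1 / 2) T)

end defs

open Pool.Agent.R945.AP in
/-- **Theorem.** Let `H` be a complex Hilbert space and `L` the mean-Aluthge transform or `M_l`,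
`0 ≤ l ≤ 1/2`. A bijective linear map `Φ` of `B(H)` commutes with `L` if and only if there are a
complex number `c ≠ 0` and a unitary `U` with `Φ T = c U T U*` for all `T`. -/
theorem result (H : Type u) [NormedAddCommGroup H] [InnerProductSpace ℂ H] [CompleteSpace H]
    (L : (H →L[ℂ] H) → (H →L[ℂ] H))
    (hL : L = meanAluthge ∨ ∃ l : ℝ, 0 ≤ l ∧ l ≤ 1 / 2 ∧ L = M l)
    (Φ : (H →L[ℂ] H) →ₗ[ℂ] (H →L[ℂ] H)) (hΦ : Function.Bijective Φ) :
    (∀ T, Φ (L T) = L (Φ T)) ↔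
      ∃ (c : ℂ) (U : H ≃ₗᵢ[ℂ] H), c ≠ 0 ∧
        ∀ T, Φ T = c • ((U : H →L[ℂ] H) * T * star (U : H →L[ℂ] H)) := by
  have h1 := t_ONE.{u}
  have h2 := t_COM.{u} h1
  have h5 := t_QUAD.{u} h1 h2 t_BIC t_EPR
  have h6 := t_RANK.{u} h1 h2 h5
  have h7 := t_BLK.{u}
  have hL' : L = mA ∨ ∃ l : ℝ, 0 ≤ l ∧ l ≤ 1 / 2 ∧ L = ML l := hL
  constructor
  · intro hc
    have hG : ∃ α : ℂ, Good L α := by
      rcases hL' with rfl | ⟨l, g0, g1, rfl⟩
      · exact ⟨0, good_A t_FIXA t_SQA t_RK t_TRIA⟩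
      · rcases g0.eq_or_lt with rfl | g0
        · exact ⟨2⁻¹, good_Z t_FIXM t_SQZ t_RK t_TRIZ⟩
        · exact ⟨0, good_M t_FIXM t_SQM t_RK t_TRIM g0 g1⟩
    obtain ⟨α, hG⟩ := hG
    exact main h1 h2 (t_PR3 h1 h2 h5 h6) (t_PR2 h1 h6) h7 (t_B3 h7) (t_B2 h7) t_TYPE t_UNI t_FIN
      t_D1 hG (LinearEquiv.ofBijective Φ hΦ) hc
  · rintro ⟨c, U, hc, h⟩ T
    rw [h, h]
    exact conj_comm t_EQV hL' c hc U T

end Pool.Agent.Results.MP_11cc5c_an.Full
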